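import Pool.Agent.W922.LP.Core

/-!
# Lower bound for the variance of the point to point time
-/

namespace Pool.Agent.W922.LP.Lb

open MeasureTheory ProbabilityTheory Pool.Agent.W533.LP

theorem rp {a b l : ℝ} (ha : 0 ≤ a) (hb : 0 ≤ b) (hl : 1 ≤ l) (h : a ≤ l * b) :
    a ^ (2 / 3 : ℝ) ≤ l * b ^ (2 / 3 : ℝ) := by
  calc a ^ (2 / 3 : ℝ) ≤ (l * b) ^ (2 / 3 : ℝ) := Real.rpow_le_rpow ha h (by norm_num)
    _ = l ^ (2 / 3 : ℝ) * b ^ (2 / 3 : ℝ) := Real.mul_rpow (by linarith) hb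
    _ ≤ l * b ^ (2 / 3 : ℝ) := by
        refine mul_le_mul_of_nonneg_right ?_ (Real.rpow_nonneg hb _)
        calc l ^ (2 / 3 : ℝ) ≤ l ^ (1 : ℝ) :=
              Real.rpow_le_rpow_of_exponent_le hl (by norm_num)
          _ = l := Real.rpow_one l

theorem cube {M b : ℝ} (hM : 0 < M) (hb : 0 ≤ b) (h : b ^ 3 ≤ M) :
    b * M ^ (2 / 3 : ℝ) ≤ M := by
  have h1 : b ≤ M ^ (1 / 3 : ℝ) := by
    have h2 : (b ^ 3) ^ (1 / 3 : ℝ) ≤ M ^ (1 / 3 : ℝ) :=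
      Real.rpow_le_rpow (by positivity) h (by norm_num)
    have h3 : (b ^ 3) ^ (1 / 3 : ℝ) = b := by
      rw [← Real.rpow_natCast, ← Real.rpow_mul hb]
      norm_num
    rwa [h3] at h2
  have h4 : M ^ (1 / 3 : ℝ) * M ^ (2 / 3 : ℝ) = M := by
    rw [← Real.rpow_add hM]
    norm_num
  calc b * M ^ (2 / 3 : ℝ) ≤ M ^ (1 / 3 : ℝ) * M ^ (2 / 3 : ℝ) :=
        mul_le_mul_of_nonneg_right h1 (Real.rpow_nonneg hM.le _)
    _ = M := h4

theorem sqr {H y : ℝ} (hy : 1 ≤ y) (h : y ^ 2 ≤ H) : y ≤ H ^ (2 / 3 : ℝ) := by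
  have h2 : (y ^ 2) ^ (2 / 3 : ℝ) ≤ H ^ (2 / 3 : ℝ) :=
    Real.rpow_le_rpow (by positivity) h (by norm_num)
  have h3 : (y ^ 2) ^ (2 / 3 : ℝ) = y ^ (4 / 3 : ℝ) := by
    rw [← Real.rpow_natCast, ← Real.rpow_mul (by linarith)]
    norm_num
  have h4 : y ^ (1 : ℝ) ≤ y ^ (4 / 3 : ℝ) := Real.rpow_le_rpow_of_exponent_le hy (by norm_num)
  rw [Real.rpow_one] at h4
  linarith

/-- Lower bound for the variance. -/
theorem pLB (hLoc : PLoc) (hInc : PInc) (hAc : PAc) (hRow : DRow) (hCross : DCross)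
    (hRot : DRot) (hMeas : AMeas) (hLaw : ALawB) (hEx : PExist) (hOps : AOps) (hMom : PMom) :
    PLB := by
  intro q hq0 hq1
  obtain ⟨κ, hκ, c₂, hc₂, hAc⟩ := hAc q hq0 hq1
  obtain ⟨ε, hε⟩ : ∃ ε : ℝ, ε = min κ (κ ^ 2) / 100 := ⟨_, rfl⟩
  have hε0 : 0 < ε := by
    rw [hε]
    have : 0 < min κ (κ ^ 2) := lt_min hκ (by positivity)
    positivity
  have hε1 : 100 * ε ≤ κ := by
    rw [hε]
    have := min_le_left κ (κ ^ 2)
    linarith
  have hε2 : 100 * ε ≤ κ ^ 2 := by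
    rw [hε]
    have := min_le_right κ (κ ^ 2)
    linarith
  obtain ⟨B, hB, N₀, hLoc⟩ := hLoc q ε hq0 hq1 hε0
  obtain ⟨c₃, hc₃, hInc⟩ := hInc q (4 * B + 4) ε hq0 hq1 (by linarith) hε0
  obtain ⟨c₁, hc₁⟩ : ∃ c₁ : ℝ, c₁ = min (min c₂ c₃) 1 := ⟨_, rfl⟩
  have hc₁0 : 0 < c₁ := by rw [hc₁]; exact lt_min (lt_min hc₂ hc₃) one_pos
  have hc₁2 : c₁ ≤ c₂ := by rw [hc₁]; exact (min_le_left _ _).trans (min_le_left _ _)
  have hc₁3 : c₁ ≤ c₃ := by rw [hc₁]; exact (min_le_left _ _).trans (min_le_right _ _)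
  have hc₁1 : c₁ ≤ 1 := by rw [hc₁]; exact min_le_right _ _
  obtain ⟨H₁, hAc⟩ := hAc c₁ hc₁0 hc₁2
  obtain ⟨H₂, hInc⟩ := hInc c₁ hc₁0 hc₁3
  refine ⟨κ ^ 4 * c₁ / 128, by positivity,
    2 * (3 + N₀ + H₁ + H₂ + ⌈(4 * B + 4) ^ 3⌉₊ + ⌈(4 / c₁) ^ 2⌉₊) + 2, ?_⟩
  intro N hN Ω _ μ W hW
  obtain ⟨M, hM⟩ : ∃ M, M = N / 2 := ⟨_, rfl⟩
  obtain ⟨H, hH⟩ : ∃ H, H = N - M := ⟨_, rfl⟩
  have hNMH : N = M + H := by omega
  have e1 : (M + H) / 2 = M := by omega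
  have e2 : M + H - M = H := by omega
  have hMH : M ≤ H := by omega
  have hHM : H ≤ M + 1 := by omega
  have hMb : 3 + N₀ + H₁ + H₂ + ⌈(4 * B + 4) ^ 3⌉₊ + ⌈(4 / c₁) ^ 2⌉₊ ≤ M := by omega
  have hM3 : 3 ≤ M := by omega
  have hM3r : (3 : ℝ) ≤ M := by exact_mod_cast hM3
  have hMHr : (M : ℝ) ≤ H := by exact_mod_cast hMH
  have hHMr : (H : ℝ) ≤ M + 1 := by exact_mod_cast hHM
  have hBM : (4 * B + 4) ^ 3 ≤ (M : ℝ) :=
    (Nat.le_ceil _).trans (by exact_mod_cast (by omega : ⌈(4 * B + 4) ^ 3⌉₊ ≤ M))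
  have hcM : (4 / c₁) ^ 2 ≤ (M : ℝ) :=
    (Nat.le_ceil _).trans (by exact_mod_cast (by omega : ⌈(4 / c₁) ^ 2⌉₊ ≤ M))
  subst hNMH
  have hNr : ((M + H : ℕ) : ℝ) = M + H := by push_cast; ring
  obtain ⟨xM, hxM⟩ : ∃ x : ℝ, x = (M : ℝ) ^ (2 / 3 : ℝ) := ⟨_, rfl⟩
  obtain ⟨xH, hxH⟩ : ∃ x : ℝ, x = (H : ℝ) ^ (2 / 3 : ℝ) := ⟨_, rfl⟩
  obtain ⟨xN, hxN⟩ : ∃ x : ℝ, x = ((M + H : ℕ) : ℝ) ^ (2 / 3 : ℝ) := ⟨_, rfl⟩
  have f1 : xM ≤ xH := by
    rw [hxM, hxH]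
    exact Real.rpow_le_rpow (by linarith) hMHr (by norm_num)
  have f2 : xH ≤ 4 / 3 * xM := by
    rw [hxM, hxH]
    exact rp (by linarith) (by linarith) (by norm_num) (by linarith)
  have f3 : xN ≤ 3 * xM := by
    rw [hxM, hxN]
    exact rp (by positivity) (by linarith) (by norm_num) (by rw [hNr]; linarith)
  have f4 : xN ≤ 2 * xH := by
    rw [hxH, hxN]
    exact rp (by positivity) (by linarith) (by norm_num) (by rw [hNr]; linarith)
  have f5 : 1 ≤ xM := by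
    rw [hxM]
    exact Real.one_le_rpow (by linarith) (by norm_num)
  have f6 : (4 * B + 4) * xM ≤ M := by
    rw [hxM]
    exact cube (by linarith) (by linarith) hBM
  have f7 : 4 / c₁ ≤ xM := by
    rw [hxM]
    refine sqr ?_ hcM
    rw [le_div_iff₀ hc₁0]
    linarith
  have f8 : 4 ≤ c₁ * xM := by
    rw [div_le_iff₀ hc₁0] at f7
    linarith
  have f9 : c₁ * xM ≤ c₁ * xH := mul_le_mul_of_nonneg_left f1 hc₁0.le
  have f10 : c₁ * xH ≤ 4 / 3 * (c₁ * xM) := by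
    have := mul_le_mul_of_nonneg_left f2 hc₁0.le
    linarith
  have f11 : c₁ * xM ≤ xM := by
    have := mul_le_mul_of_nonneg_right hc₁1 (by linarith : (0 : ℝ) ≤ xM)
    linarith
  have f12 : B * xN ≤ 3 * (B * xM) := by
    have := mul_le_mul_of_nonneg_left f3 hB.le
    linarith
  obtain ⟨s, hs⟩ : ∃ s : ℕ, s = ⌊3 / 4 * (c₁ * xH)⌋₊ := ⟨_, rfl⟩
  obtain ⟨K, hK⟩ : ∃ K : ℕ, K = ⌈B * xN⌉₊ := ⟨_, rfl⟩
  have s1 : (s : ℝ) ≤ 3 / 4 * (c₁ * xH) := by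
    rw [hs]
    exact Nat.floor_le (by linarith)
  have s2 : 3 / 4 * (c₁ * xH) - 1 < (s : ℝ) := by
    rw [hs]
    exact Nat.sub_one_lt_floor _
  have k1 : B * xN ≤ K := by
    rw [hK]
    exact Nat.le_ceil _
  have hBx : 0 ≤ B * xM := by positivity
  have k2 : (K : ℝ) < B * xN + 1 := by
    rw [hK]
    refine Nat.ceil_lt_add_one ?_
    rw [hxN]
    positivity
  have hsum : (s : ℝ) + K + 1 ≤ (3 * B + 3) * xM := by nlinarith
  have hsum2 : (s : ℝ) + K + 1 ≤ (4 * B + 4) * xM := by nlinarith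
  have hsM : s + K + 1 ≤ M := by
    have : (s : ℝ) + K + 1 ≤ M := hsum2.trans f6
    exact_mod_cast this
  have hKM : K ≤ M := by omega
  have hsum3 : (s : ℝ) + K + 1 ≤ (4 * B + 4) * xH :=
    hsum2.trans (mul_le_mul_of_nonneg_left f1 (by linarith))
  have hs0 : (0 : ℝ) ≤ s := Nat.cast_nonneg _
  have hK0 : (0 : ℝ) ≤ K := Nat.cast_nonneg _
  have hsq : 0 ≤ Real.sqrt s := Real.sqrt_nonneg _
  have hss : Real.sqrt s ^ 2 = s := Real.sq_sqrt hs0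
  have hcore := core hMom hMeas hLaw hEx hRow hCross hRot hOps q hq0.le hq1 M H s K (by omega)
    (by omega) (by omega) κ ε (ε * Real.sqrt s) (s * mean (Real.sqrt q) + κ * Real.sqrt s)
    (s * mean (Real.sqrt q) - κ * Real.sqrt s) (by nlinarith) hκ.le
    (by
      intro Ω' _ μ' W' hW'
      have h := hLoc (M + H) (by omega) μ' W' hW'
      simp only [e1, e2] at h
      have := hW'.prob
      refine le_trans (measureReal_mono ?_) h
      rintro ω ⟨z, hz, hzK, hle⟩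
      refine ⟨z, hz, ?_, hle⟩
      have hz' : (K : ℝ) ≤ |(z : ℝ) - (M : ℝ)| := by
        rcases hzK with h1 | h1
        · have : (z : ℝ) + K ≤ M := by exact_mod_cast h1
          rw [abs_sub_comm]
          exact le_trans (by linarith) (le_abs_self _)
        · have : (M : ℝ) + K ≤ z := by exact_mod_cast h1
          exact le_trans (by linarith) (le_abs_self _)
      rw [← hxN]
      exact k1.trans hz')
    (by
      intro Ω' _ μ' W' hW'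
      refine hInc H (by omega) (M - K) (M + s + K) (M + H) s (by omega) (by omega) ?_ ?_ ?_ ?_
        μ' W' hW'
      · rw [← hxH]; linarith
      · rw [← hxH]; linarith
      · rw [← hxH, Nat.cast_sub hKM, hNr, abs_le]
        constructor <;> linarith
      · rw [← hxH, hNr, abs_le]
        push_cast
        constructor <;> linarith)
    (by
      intro Ω' _ μ' W' hW'
      refine hInc M (by omega) 0 (s + 2 * K) (M + K + 1) s (by omega) (by omega) ?_ ?_ ?_ ?_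
        μ' W' hW'
      · rw [← hxM]; linarith
      · rw [← hxM]; linarith
      · rw [← hxM, abs_le]
        push_cast
        constructor <;> linarith
      · rw [← hxM, abs_le]
        push_cast
        constructor <;> linarith)
    (by
      intro Ω' _ μ' W' hW'
      exact (hAc H (by omega) s (by rw [← hxH]; linarith) (by rw [← hxH]; linarith)
        μ' W' hW').1)
    (by
      intro Ω' _ μ' W' hW'
      exact (hAc H (by omega) s (by rw [← hxH]; linarith) (by rw [← hxH]; linarith)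
        μ' W' hW').2)
    μ W hW
  rw [← hxN]
  have g1 : s * mean (Real.sqrt q) + κ * Real.sqrt s - (s * mean (Real.sqrt q) - κ * Real.sqrt s)
      - 3 * (ε * Real.sqrt s) = (2 * κ - 3 * ε) * Real.sqrt s := by ring
  rw [g1, mul_pow, hss] at hcore
  have g2 : κ ^ 2 ≤ (2 * κ - 3 * ε) ^ 2 := pow_le_pow_left₀ hκ.le (by linarith) 2
  have g3 : κ ^ 2 / 2 ≤ κ ^ 2 - 7 * ε := by linarith
  have g4 : κ ^ 2 * s * (κ ^ 2 / 2) ≤ (2 * κ - 3 * ε) ^ 2 * s * (κ ^ 2 - 7 * ε) := by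
    have a1 : κ ^ 2 * s ≤ (2 * κ - 3 * ε) ^ 2 * s := mul_le_mul_of_nonneg_right g2 hs0
    exact mul_le_mul a1 g3 (by positivity) (by positivity)
  have g5 : c₁ * xN / 4 ≤ s := by
    have := mul_le_mul_of_nonneg_left f4 hc₁0.le
    linarith
  have g6 : κ ^ 4 / 32 * (c₁ * xN / 4) ≤ κ ^ 4 / 32 * s :=
    mul_le_mul_of_nonneg_left g5 (by positivity)
  nlinarith

end Pool.Agent.W922.LP.Lb
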