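import Pool.Agent.W533.LP.Defs

/-!
# Lower bound for the variance: deterministic part
-/

namespace Pool.Agent.W922.LP.Lb

open Pool.Agent.W533.LP

theorem G_congr (I J : ℕ → ℕ) (W W' : ℕ → ℕ → ℕ) : ∀ m n,
    (∀ i < m, ∀ j < n, W i j = W' i j) → G I J W m n = G I J W' m n := by
  intro m
  induction m with
  | zero =>
    intro n
    induction n with
    | zero => intro _; simp [G]
    | succ n ih =>
      intro h
      simp only [G]
      rw [ih (fun i hi => absurd hi (Nat.not_lt_zero _))]
  | succ m ihm =>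
    intro n
    induction n with
    | zero =>
      intro h
      simp only [G]
      rw [ihm 0 (fun i _ j hj => absurd hj (Nat.not_lt_zero _))]
    | succ n ihn =>
      intro h
      simp only [G]
      rw [ihm (n + 1) (fun i hi j hj => h i (Nat.lt_succ_of_lt hi) j hj),
        ihn (fun i hi j hj => h i hi j (Nat.lt_succ_of_lt hj)), h m (Nat.lt_succ_self _) n
        (Nat.lt_succ_self _)]

theorem T_congr (W W' : ℕ → ℕ → ℕ) (m n : ℕ)
    (h : ∀ i < m, ∀ j < n, W i j = W' i j) : T W m n = T W' m n :=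
  G_congr zero zero W W' m n h

theorem T_le_sum (W : ℕ → ℕ → ℕ) : ∀ m n,
    T W m n ≤ ∑ i ∈ Finset.range m, ∑ j ∈ Finset.range n, W i j := by
  intro m
  induction m with
  | zero =>
    intro n
    induction n with
    | zero => simp [T, G]
    | succ n ih =>
      simp only [T, G, zero] at ih ⊢
      simpa using ih
  | succ m ihm =>
    intro n
    induction n with
    | zero =>
      have := ihm 0
      simp only [T, G, zero] at this ⊢
      simpa using this
    | succ n ihn =>
      have h1 := ihm (n + 1)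
      have e : T W (m + 1) (n + 1) = max (T W m (n + 1)) (T W (m + 1) n) + W m n := by
        simp [T, G]
      rw [e]
      have h3 : ∑ i ∈ Finset.range (m + 1), ∑ j ∈ Finset.range (n + 1), W i j
          = ∑ i ∈ Finset.range (m + 1), ∑ j ∈ Finset.range n, W i j
            + ∑ i ∈ Finset.range (m + 1), W i n := by
        rw [← Finset.sum_add_distrib]
        exact Finset.sum_congr rfl (fun i _ => Finset.sum_range_succ _ _)
      have h4 : W m n ≤ ∑ i ∈ Finset.range (m + 1), W i n :=
        Finset.single_le_sum (f := fun i => W i n) (fun i _ => Nat.zero_le _)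
          (Finset.mem_range.2 (Nat.lt_succ_self m))
      have h5 : ∑ i ∈ Finset.range (m + 1), ∑ j ∈ Finset.range (n + 1), W i j
          = ∑ i ∈ Finset.range m, ∑ j ∈ Finset.range (n + 1), W i j
            + ∑ j ∈ Finset.range (n + 1), W m j := Finset.sum_range_succ _ _
      have h6 : W m n ≤ ∑ j ∈ Finset.range (n + 1), W m j :=
        Finset.single_le_sum (f := fun j => W m j) (fun i _ => Nat.zero_le _)
          (Finset.mem_range.2 (Nat.lt_succ_self n))
      rcases le_total (T W m (n + 1)) (T W (m + 1) n) with hle | hle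
      · rw [max_eq_right hle]
        omega
      · rw [max_eq_left hle]
        omega

/-- One environment: `X = T0s - T00` and `D = T0s - Tss` are between the values of the
increments at the ends of the window. -/
theorem detA (hRow : DRow) (hCross : DCross) (W : ℕ → ℕ → ℕ) (M H s K : ℕ) (hM : 1 ≤ M)
    (hsK : s + K ≤ M) (hsH : s + K < H)
    (h1 : ∀ z < M + H, (z + K ≤ M ∨ M + K ≤ z) →
      T W (z + 1) M + T (sh z M W) (M + H - z) H < T W (M + 1) M + T (sh M M W) H H)
    (h3 : ∀ z < M + H, (z + K ≤ M ∨ M + K ≤ z) →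
      T (sh s 0 W) (z + 1) M + T (sh z M (sh s 0 W)) (M + H - z) H
        < T (sh s 0 W) (M + 1) M + T (sh M M (sh s 0 W)) H H) :
    -- inc(M-K) ≤ X
    (T W (M + H) (M + H) + T (sh (M - K) M W) (M + H + s - (M - K)) H
      ≤ T W (M + H + s) (M + H) + T (sh (M - K) M W) (M + H - (M - K)) H) ∧
    -- X ≤ inc(M+s+K)
    (T W (M + H + s) (M + H) + T (sh (M + s + K) M W) (M + H - (M + s + K)) H
      ≤ T W (M + H) (M + H) + T (sh (M + s + K) M W) (M + H + s - (M + s + K)) H) ∧
    -- D ≤ d(M-K)
    (T W (M + H + s) (M + H) + T (sh s 0 W) (M - K + 1 - s) M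
      ≤ T (sh s 0 W) (M + H) (M + H) + T W (M - K + 1) M) ∧
    -- d(M+s+K) ≤ D
    (T (sh s 0 W) (M + H) (M + H) + T W (M + s + K + 1) M
      ≤ T W (M + H + s) (M + H) + T (sh s 0 W) (M + s + K + 1 - s) M) ∧
    -- inc(M-K) ≤ inc(M)
    (T (sh (M - K) M W) (M + H + s - (M - K)) H + T (sh M M W) H H
      ≤ T (sh M M W) (H + s) H + T (sh (M - K) M W) (M + H - (M - K)) H) ∧
    -- inc(M) ≤ inc(M+s+K)
    (T (sh M M W) (H + s) H + T (sh (M + s + K) M W) (M + H - (M + s + K)) H
      ≤ T (sh (M + s + K) M W) (M + H + s - (M + s + K)) H + T (sh M M W) H H) := by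
  obtain ⟨u0, hu0⟩ : ∃ u0 : ℕ → ℕ, ∀ z, T W (z + 1) M = u0 z := ⟨_, fun _ => rfl⟩
  obtain ⟨f0, hf0⟩ : ∃ f0 : ℕ → ℕ, ∀ z, T (sh z M W) (M + H - z) H = f0 z := ⟨_, fun _ => rfl⟩
  obtain ⟨us, hus⟩ : ∃ us : ℕ → ℕ, ∀ z, T (sh s 0 W) (z + 1 - s) M = us z := ⟨_, fun _ => rfl⟩
  obtain ⟨fs, hfs⟩ : ∃ fs : ℕ → ℕ, ∀ z, T (sh z M W) (M + H + s - z) H = fs z :=
    ⟨_, fun _ => rfl⟩
  have hf0M : T (sh M M W) H H = f0 M := by
    rw [← hf0]; congr 1; omega
  have hfsM : T (sh M M W) (H + s) H = fs M := by
    rw [← hfs]; congr 1; omega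
  -- crossing for `f`
  have F1 : ∀ z k, z + k ≤ M + H → fs z + f0 (z + k) ≤ fs (z + k) + f0 z := by
    intro z k hk
    have h := hCross (sh z M W) k (M + H - (z + k)) s H
    have e0 : sh k 0 (sh z M W) = sh (z + k) M W := by
      funext i j
      simp only [sh]
      congr 1
      omega
    rw [e0] at h
    have e1 : k + (M + H - (z + k)) + s = M + H + s - z := by omega
    have e2 : k + (M + H - (z + k)) = M + H - z := by omega
    have e3 : M + H - (z + k) + s = M + H + s - (z + k) := by omega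
    rw [e1, e2, e3, hfs, hf0, hfs, hf0] at h
    omega
  have F2 : ∀ z k, s ≤ z → us z + u0 (z + k) ≤ us (z + k) + u0 z := by
    intro z k hz
    have h := hCross W s (z + 1 - s) k M
    have e1 : s + (z + 1 - s) + k = z + k + 1 := by omega
    have e2 : s + (z + 1 - s) = z + 1 := by omega
    have e3 : z + 1 - s + k = z + k + 1 - s := by omega
    rw [e1, e2, e3, hus, hus, hu0, hu0] at h
    omega
  obtain ⟨R1, z0, hz0, R1'⟩ := hRow W (M + H) M H (by omega) hM (by omega)
  obtain ⟨R2, z1, hz1, R2'⟩ := hRow W (M + H + s) M H (by omega) hM (by omega)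
  obtain ⟨R3, z2, hz2, R3'⟩ := hRow (sh s 0 W) (M + H) M H (by omega) hM (by omega)
  have es : ∀ z, sh z M (sh s 0 W) = sh (z + s) M W := by
    intro z
    funext i j
    simp only [sh]
    congr 1
    omega
  have eu : ∀ z, T (sh s 0 W) (z + 1) M = us (z + s) := by
    intro z
    rw [← hus]
    congr 1
    omega
  have ef : ∀ z, T (sh z M (sh s 0 W)) (M + H - z) H = fs (z + s) := by
    intro z
    rw [es, ← hfs]
    congr 1
    omega
  have efM : T (sh M M (sh s 0 W)) H H = fs (M + s) := by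
    rw [es, ← hfs]
    congr 1
    omega
  obtain ⟨T00, hT00⟩ : ∃ t, T W (M + H) (M + H) = t := ⟨_, rfl⟩
  obtain ⟨T0s, hT0s⟩ : ∃ t, T W (M + H + s) (M + H) = t := ⟨_, rfl⟩
  obtain ⟨Tss, hTss⟩ : ∃ t, T (sh s 0 W) (M + H) (M + H) = t := ⟨_, rfl⟩
  have h1' : ∀ z < M + H, (z + K ≤ M ∨ M + K ≤ z) → u0 z + f0 z < u0 M + f0 M := by
    intro z hz hzK
    have := h1 z hz hzK
    rwa [hu0, hf0, hu0, hf0M] at this
  have h3' : ∀ z < M + H, (z + K ≤ M ∨ M + K ≤ z) →
      us (z + s) + fs (z + s) < us (M + s) + fs (M + s) := by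
    intro z hz hzK
    have := h3 z hz hzK
    rwa [eu, ef, eu, efM] at this
  have R1a : ∀ z < M + H, u0 z + f0 z ≤ T00 := by
    intro z hz
    have := R1 z hz
    rwa [hu0, hf0, hT00] at this
  have R1b : T00 = u0 z0 + f0 z0 := by
    have := R1'
    rwa [hu0, hf0, hT00] at this
  have R2a : ∀ z < M + H + s, u0 z + fs z ≤ T0s := by
    intro z hz
    have := R2 z hz
    rwa [hu0, hfs, hT0s] at this
  have R2b : T0s = u0 z1 + fs z1 := by
    have := R2'
    rwa [hu0, hfs, hT0s] at this
  have R3a : ∀ z < M + H, us (z + s) + fs (z + s) ≤ Tss := by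
    intro z hz
    have := R3 z hz
    rwa [eu, ef, hTss] at this
  have R3b : Tss = us (z2 + s) + fs (z2 + s) := by
    have := R3'
    rwa [eu, ef, hTss] at this
  rw [hT00, hT0s, hTss]
  rw [hfs, hf0, hf0, hfs, hus, hu0, hu0, hus, hf0M, hfsM]
  -- positions of the maximisers
  have p0 : M < z0 + K ∧ z0 < M + K := by
    have a := R1a M (by omega)
    by_contra hcon
    have := h1' z0 hz0 (by omega)
    omega
  have p2 : M < z2 + K ∧ z2 < M + K := by
    have a := R3a M (by omega)
    by_contra hcon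
    have := h3' z2 hz2 (by omega)
    omega
  have p1 : M ≤ z1 + K ∧ z1 ≤ M + s + K := by
    have a := R2a M (by omega)
    have b := R2a (M + s) (by omega)
    by_contra hcon
    rcases (by omega : z1 + K < M ∨ M + s + K < z1) with hlt | hgt
    · have c1 := h1' z1 (by omega) (by omega)
      have c2 := F1 z1 (M - z1) (by omega)
      rw [show z1 + (M - z1) = M by omega] at c2
      omega
    · have c1 := h3' (z1 - s) (by omega) (by omega)
      rw [show z1 - s + s = z1 by omega] at c1
      have c2 := F2 (M + s) (z1 - (M + s)) (by omega)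
      rw [show M + s + (z1 - (M + s)) = z1 by omega] at c2
      omega
  refine ⟨?_, ?_, ?_, ?_, ?_, ?_⟩
  · -- T00 + fs (M-K) ≤ T0s + f0 (M-K)
    have a := R2a z0 (by omega)
    have b := F1 (M - K) (z0 - (M - K)) (by omega)
    rw [show M - K + (z0 - (M - K)) = z0 by omega] at b
    omega
  · -- T0s + f0 (M+s+K) ≤ T00 + fs (M+s+K)
    have a := R1a z1 (by omega)
    have b := F1 z1 (M + s + K - z1) (by omega)
    rw [show z1 + (M + s + K - z1) = M + s + K by omega] at b
    omega
  · -- T0s + us (M-K) ≤ Tss + u0 (M-K)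
    have a := R3a (z1 - s) (by omega)
    rw [show z1 - s + s = z1 by omega] at a
    have b := F2 (M - K) (z1 - (M - K)) (by omega)
    rw [show M - K + (z1 - (M - K)) = z1 by omega] at b
    omega
  · -- Tss + u0 (M+s+K) ≤ T0s + us (M+s+K)
    have a := R2a (z2 + s) (by omega)
    have b := F2 (z2 + s) (M + s + K - (z2 + s)) (by omega)
    rw [show z2 + s + (M + s + K - (z2 + s)) = M + s + K by omega] at b
    omega
  · have b := F1 (M - K) K (by omega)
    rw [show M - K + K = M by omega] at b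
    omega
  · have b := F1 M (s + K) (by omega)
    rw [show M + (s + K) = M + s + K by omega] at b
    omega

/-- The window for `D` in terms of the rotated environment. -/
theorem detRot (hRot : DRot) (W : ℕ → ℕ → ℕ) (M s K : ℕ) (hsK : s + K ≤ M) :
    T (rot (M + s + K + 1) M W) (M + K + 1 + s) M = T W (M + s + K + 1) M ∧
    T (rot (M + s + K + 1) M W) (M + K + 1) M = T (sh s 0 W) (M + s + K + 1 - s) M ∧
    T (sh (s + 2 * K) 0 (rot (M + s + K + 1) M W)) (M + K + 1 + s - (s + 2 * K)) M
      = T W (M - K + 1) M ∧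
    T (sh (s + 2 * K) 0 (rot (M + s + K + 1) M W)) (M + K + 1 - (s + 2 * K)) M
      = T (sh s 0 W) (M - K + 1 - s) M := by
  have sh00 : ∀ V : ℕ → ℕ → ℕ, sh 0 0 V = V := fun V => rfl
  refine ⟨?_, ?_, ?_, ?_⟩
  · have h := hRot W (M + s + K + 1) M 0 0 (by omega) (by omega)
    rw [sh00, Nat.sub_zero, Nat.sub_zero] at h
    rw [← h]
    congr 1
    omega
  · have h := hRot W (M + s + K + 1) M s 0 (by omega) (by omega)
    rw [Nat.sub_zero] at h
    rw [← h]
    congr 1
    omega
  · have h := hRot W (M - K + 1) M 0 0 (by omega) (by omega)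
    rw [sh00, Nat.sub_zero, Nat.sub_zero] at h
    rw [← h, show M + K + 1 + s - (s + 2 * K) = M - K + 1 by omega]
    apply T_congr
    intro i hi j hj
    simp only [sh, rot]
    rw [if_pos (by omega), if_pos (by omega)]
    congr 1
    omega
  · have h := hRot W (M - K + 1) M s 0 (by omega) (by omega)
    rw [Nat.sub_zero] at h
    rw [← h, show M + K + 1 - (s + 2 * K) = M - K + 1 - s by omega]
    apply T_congr
    intro i hi j hj
    simp only [sh, rot]
    rw [if_pos (by omega), if_pos (by omega)]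
    congr 1
    omega

end Pool.Agent.W922.LP.Lb
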