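import Pool.Agent.W533.LP.Stm
import Pool.Agent.W533.LP.Stm3
import Pool.Agent.W922.LP.Det

/-!
# Lower bound for the variance: probabilistic core
-/

namespace Pool.Agent.W922.LP.Lb

open MeasureTheory ProbabilityTheory Pool.Agent.W533.LP

theorem precomp {Ω ι κ : Type} [MeasurableSpace Ω] {μ : Measure Ω} {p : ι → ℝ}
    {X : ι → Ω → ℕ} (h : GeoFam μ p X) (g : κ → ι) (hg : Function.Injective g) :
    GeoFam μ (fun k => p (g k)) (fun k => X (g k)) where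
  prob := h.prob
  pos := fun k => h.pos (g k)
  meas := fun k => h.meas (g k)
  indep := h.indep.precomp hg
  law := fun k => h.law (g k)

theorem meas_T (hMeas : AMeas) {Ω : Type} [MeasurableSpace Ω] (W : ℕ → ℕ → Ω → ℕ)
    (hW : ∀ i j, Measurable (W i j)) (m n : ℕ) : Measurable (fun ω => (Tr W m n ω : ℝ)) := by
  have h := hMeas.2.1 (zr : ℕ → Ω → ℕ) zr W (fun i => measurable_const) (fun i => measurable_const)
    hW m n
  have h2 : Measurable (Tr W m n) := h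
  exact measurable_from_top.comp h2

theorem memLp_T (hMom : PMom) (hMeas : AMeas) {Ω : Type} [MeasurableSpace Ω] {μ : Measure Ω}
    {q : ℝ} (hq : q < 1) {W : ℕ → ℕ → Ω → ℕ} (hW : Bulk μ q W) (m n : ℕ) :
    MemLp (fun ω => (Tr W m n ω : ℝ)) 2 μ := by
  have := hW.prob
  have h1 : ∀ i j, MemLp (fun ω => (W i j ω : ℝ)) 2 μ := by
    intro i j
    obtain ⟨C, _, hC⟩ := hMom q hq
    have h := (hC μ q 1 (fun _ : Fin 1 => W i j) le_rfl
      (precomp hW (fun _ : Fin 1 => (i, j)) (fun a b _ => Subsingleton.elim a b))).1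
    have h' : MemLp (fun ω => (W i j ω : ℝ)) 4 μ := by simpa using h
    exact h'.mono_exponent (by norm_num)
  have h2 : MemLp (fun ω => ∑ i ∈ Finset.range m, ∑ j ∈ Finset.range n, (W i j ω : ℝ)) 2 μ :=
    memLp_finsetSum _ (fun i _ => memLp_finsetSum _ (fun j _ => h1 i j))
  refine h2.mono (meas_T hMeas W (fun i j => hW.meas (i, j)) m n).aestronglyMeasurable
    (Filter.Eventually.of_forall (fun ω => ?_))
  have h3 := T_le_sum (fun i j => W i j ω) m n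
  have h4 : ((T (fun i j => W i j ω) m n : ℕ) : ℝ)
      ≤ ∑ i ∈ Finset.range m, ∑ j ∈ Finset.range n, (W i j ω : ℝ) := by exact_mod_cast h3
  rw [Real.norm_of_nonneg (Nat.cast_nonneg _), Real.norm_of_nonneg]
  · exact h4
  · exact Finset.sum_nonneg (fun i _ => Finset.sum_nonneg (fun j _ => Nat.cast_nonneg _))

/-- Second moments. -/
theorem cheb {Ω : Type} [MeasurableSpace Ω] {P : Measure Ω} [IsProbabilityMeasure P]
    (a b c d : Ω → ℝ) (m V t δ : ℝ) (ha : MemLp a 2 P) (hb : MemLp b 2 P) (hc : MemLp c 2 P)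
    (hd : MemLp d 2 P) (ea : ∫ ω, (a ω - m) ^ 2 ∂P = V) (eb : ∫ ω, (b ω - m) ^ 2 ∂P = V)
    (ec : ∫ ω, (c ω - m) ^ 2 ∂P = V) (ed : ∫ ω, (d ω - m) ^ 2 ∂P = V) (ht : 0 ≤ t)
    (h : δ ≤ P.real {ω | t ≤ (a ω - b ω) - (c ω - d ω)}) : t ^ 2 * δ ≤ 16 * V := by
  have hi : ∀ f : Ω → ℝ, MemLp f 2 P → Integrable (fun ω => (f ω - m) ^ 2) P :=
    fun f hf => (hf.sub (memLp_const m)).integrable_sq
  have hF : Integrable (fun ω => ((a ω - b ω) - (c ω - d ω)) ^ 2) P :=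
    ((ha.sub hb).sub (hc.sub hd)).integrable_sq
  have h1 := mul_meas_ge_le_integral_of_nonneg
    (Filter.Eventually.of_forall (fun ω => sq_nonneg ((a ω - b ω) - (c ω - d ω)))) hF (t ^ 2)
  have h2 : P.real {ω | t ≤ (a ω - b ω) - (c ω - d ω)}
      ≤ P.real {ω | t ^ 2 ≤ ((a ω - b ω) - (c ω - d ω)) ^ 2} := by
    refine measureReal_mono (fun ω hω => ?_)
    have hω' : t ≤ (a ω - b ω) - (c ω - d ω) := hω
    exact pow_le_pow_left₀ ht hω' 2
  have h3 : ∫ ω, ((a ω - b ω) - (c ω - d ω)) ^ 2 ∂P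
      ≤ ∫ ω, (4 * ((a ω - m) ^ 2 + (b ω - m) ^ 2) + 4 * ((c ω - m) ^ 2 + (d ω - m) ^ 2)) ∂P := by
    apply integral_mono hF
    · exact (((hi a ha).add (hi b hb)).const_mul 4).add (((hi c hc).add (hi d hd)).const_mul 4)
    · intro ω
      simp only
      nlinarith [sq_nonneg ((a ω - m) + (b ω - m)), sq_nonneg ((c ω - m) + (d ω - m)),
        sq_nonneg ((a ω - m) + (c ω - m)), sq_nonneg ((a ω - m) - (d ω - m)),
        sq_nonneg ((b ω - m) - (c ω - m)), sq_nonneg ((b ω - m) + (d ω - m))]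
  have h4 : ∫ ω, (4 * ((a ω - m) ^ 2 + (b ω - m) ^ 2) + 4 * ((c ω - m) ^ 2 + (d ω - m) ^ 2)) ∂P
      = 16 * V := by
    have j1 : ∫ ω, (4 * ((a ω - m) ^ 2 + (b ω - m) ^ 2) + 4 * ((c ω - m) ^ 2 + (d ω - m) ^ 2)) ∂P
        = ∫ ω, 4 * ((a ω - m) ^ 2 + (b ω - m) ^ 2) ∂P
          + ∫ ω, 4 * ((c ω - m) ^ 2 + (d ω - m) ^ 2) ∂P :=
      integral_add (((hi a ha).add (hi b hb)).const_mul 4) (((hi c hc).add (hi d hd)).const_mul 4)
    rw [j1, integral_const_mul, integral_const_mul,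
      integral_add (hi a ha) (hi b hb), integral_add (hi c hc) (hi d hd), ea, eb, ec, ed]
    ring
  calc t ^ 2 * δ ≤ t ^ 2 * P.real {ω | t ^ 2 ≤ ((a ω - b ω) - (c ω - d ω)) ^ 2} :=
        mul_le_mul_of_nonneg_left (h.trans h2) (sq_nonneg t)
    _ ≤ _ := h1
    _ ≤ _ := h3
    _ = _ := h4

/-- Second moment of `Tr` in any bulk. -/
theorem mom_T (hMom : PMom) (hMeas : AMeas) (hLaw : ALawB) {Ω Ω' : Type} [MeasurableSpace Ω]
    [MeasurableSpace Ω'] {μ : Measure Ω} {μ' : Measure Ω'} {q : ℝ} (hq : q < 1)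
    {W : ℕ → ℕ → Ω → ℕ} {W' : ℕ → ℕ → Ω' → ℕ} (hW : Bulk μ q W) (hW' : Bulk μ' q W')
    (m n : ℕ) :
    ∫ ω, ((Tr W' m n ω : ℝ) - ∫ ω, (Tr W m n ω : ℝ) ∂μ) ^ 2 ∂μ'
      = variance (fun ω => (Tr W m n ω : ℝ)) μ := by
  have hF : Measurable (fun w : ℕ → ℕ → ℕ => ((T w m n : ℕ) : ℝ)) := by
    have h := (hMeas.1 m n).comp (measurable_const.prodMk (measurable_const.prodMk
      measurable_id) : Measurable (fun w : ℕ → ℕ → ℕ => ((zero, zero, w) :
        (ℕ → ℕ) × (ℕ → ℕ) × (ℕ → ℕ → ℕ))))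
    exact measurable_from_top.comp h
  have hI := hLaw μ μ' q W W' hW hW' _ hF
  have e1 : ∫ ω, (Tr W m n ω : ℝ) ∂μ = ∫ ω, (Tr W' m n ω : ℝ) ∂μ' := hI.integral_eq
  have e2 : variance (fun ω => (Tr W m n ω : ℝ)) μ = variance (fun ω => (Tr W' m n ω : ℝ)) μ' :=
    hI.variance_eq
  rw [e1, e2, variance_eq_integral]
  exact (meas_T hMeas W' (fun i j => hW'.meas (i, j)) m n).aemeasurable

theorem meas_inc (hMeas : AMeas) {Ω : Type} [MeasurableSpace Ω] (W : ℕ → ℕ → Ω → ℕ)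
    (hW : ∀ i j, Measurable (W i j)) (m n m' n' : ℕ) (c : ℝ) :
    MeasurableSet {ω | c ≤ (Tr W m n ω : ℝ) - Tr W m' n' ω} ∧
    MeasurableSet {ω | (Tr W m n ω : ℝ) - Tr W m' n' ω ≤ c} :=
  ⟨measurableSet_le measurable_const ((meas_T hMeas W hW m n).sub (meas_T hMeas W hW m' n')),
    measurableSet_le ((meas_T hMeas W hW m n).sub (meas_T hMeas W hW m' n')) measurable_const⟩

/-- The core. -/
theorem core (hMom : PMom) (hMeas : AMeas) (hLaw : ALawB) (hEx : PExist) (hRow : DRow)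
    (hCross : DCross) (hRot : DRot) (hOps : AOps) (q : ℝ) (hq0 : 0 ≤ q) (hq : q < 1)
    (M H s K : ℕ) (hM : 1 ≤ M)
    (hsK : s + K ≤ M) (hsH : s + K < H) (κ ε e t1 t2 : ℝ) (ht : 0 ≤ t1 - t2 - 3 * e)
    (hκ : 0 ≤ κ)
    (hLoc : ∀ {Ω : Type} [MeasurableSpace Ω] (μ : Measure Ω) (W : ℕ → ℕ → Ω → ℕ),
      Bulk μ q W → μ.real {ω | ∃ z < M + H, (z + K ≤ M ∨ M + K ≤ z) ∧
        Tr W (M + 1) M ω + Tr (shr M M W) H H ω
          ≤ Tr W (z + 1) M ω + Tr (shr z M W) (M + H - z) H ω} ≤ ε)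
    (hInc1 : ∀ {Ω : Type} [MeasurableSpace Ω] (μ : Measure Ω) (W : ℕ → ℕ → Ω → ℕ),
      Bulk μ q W → μ.real {ω | e ≤
        ((Tr (shr (M + s + K) 0 W) (M + H + s - (M + s + K)) H ω : ℝ)
          - Tr (shr (M + s + K) 0 W) (M + H - (M + s + K)) H ω)
        - ((Tr (shr (M - K) 0 W) (M + H + s - (M - K)) H ω : ℝ)
          - Tr (shr (M - K) 0 W) (M + H - (M - K)) H ω)} ≤ ε)
    (hInc2 : ∀ {Ω : Type} [MeasurableSpace Ω] (μ : Measure Ω) (W : ℕ → ℕ → Ω → ℕ),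
      Bulk μ q W → μ.real {ω | e ≤
        ((Tr (shr (s + 2 * K) 0 W) (M + K + 1 + s - (s + 2 * K)) M ω : ℝ)
          - Tr (shr (s + 2 * K) 0 W) (M + K + 1 - (s + 2 * K)) M ω)
        - ((Tr (shr 0 0 W) (M + K + 1 + s - 0) M ω : ℝ)
          - Tr (shr 0 0 W) (M + K + 1 - 0) M ω)} ≤ ε)
    (hAc1 : ∀ {Ω : Type} [MeasurableSpace Ω] (μ : Measure Ω) (W : ℕ → ℕ → Ω → ℕ),
      Bulk μ q W → κ ≤ μ.real {ω | t1 ≤ (Tr W (H + s) H ω : ℝ) - Tr W H H ω})
    (hAc2 : ∀ {Ω : Type} [MeasurableSpace Ω] (μ : Measure Ω) (W : ℕ → ℕ → Ω → ℕ),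
      Bulk μ q W → κ ≤ μ.real {ω | (Tr W (H + s) H ω : ℝ) - Tr W H H ω ≤ t2})
    {Ω₀ : Type} [MeasurableSpace Ω₀] (μ₀ : Measure Ω₀) (W₀ : ℕ → ℕ → Ω₀ → ℕ)
    (hW₀ : Bulk μ₀ q W₀) :
    (t1 - t2 - 3 * e) ^ 2 * (κ ^ 2 - 7 * ε)
      ≤ 16 * variance (fun ω => (Tr W₀ (M + H) (M + H) ω : ℝ)) μ₀ := by
  obtain ⟨Ω, mΩ, P, X, hX⟩ := hEx ((ℕ × ℕ) ⊕ (ℕ × ℕ)) (fun _ => q) (fun _ => ⟨hq0, hq⟩)
  have := hX.prob
  -- the two environments
  let W : ℕ → ℕ → Ω → ℕ := fun i j => X (Sum.inl (i, j))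
  let Wh : ℕ → ℕ → Ω → ℕ := fun i j => X (if j < M then Sum.inl (i, j) else Sum.inr (i, j))
  have hW : Bulk P q W := precomp hX (fun v : ℕ × ℕ => Sum.inl v) Sum.inl_injective
  have hWh : Bulk P q Wh := by
    refine precomp hX (fun v : ℕ × ℕ => if v.2 < M then Sum.inl (v.1, v.2)
      else Sum.inr (v.1, v.2)) ?_
    rintro ⟨i, j⟩ ⟨i', j'⟩ h
    simp only at h
    split_ifs at h with h1 h2
    · simpa using h
    · simpa using h
  have hsWx : ∀ (V : ℕ → ℕ → Ω → ℕ), Bulk P q V → ∀ x y, Bulk P q (shr x y V) :=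
    fun V hV => ((hOps P q).2.2 V hV).1
  have hrot : ∀ (V : ℕ → ℕ → Ω → ℕ), Bulk P q V → ∀ m n,
      Bulk P q (fun i j ω => rot m n (fun i j => V i j ω) i j) :=
    fun V hV => ((hOps P q).2.2 V hV).2.1
  -- events
  let A1 : Set Ω := {ω | t1 ≤ (Tr (shr M M W) (H + s) H ω : ℝ) - Tr (shr M M W) H H ω}
  let A2 : Set Ω := {ω | (Tr (shr M M Wh) (H + s) H ω : ℝ) - Tr (shr M M Wh) H H ω ≤ t2}
  have hA1 : κ ≤ P.real A1 := hAc1 P _ (hsWx W hW M M)
  have hA2 : κ ≤ P.real A2 := hAc2 P _ (hsWx Wh hWh M M)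
  -- independence
  have hInd : P.real (A1 ∩ A2) = P.real A1 * P.real A2 := by
    have hi : iIndep (fun x => MeasurableSpace.comap (X x) (⊤ : MeasurableSpace ℕ)) P := hX.indep
    have hd : Disjoint (Set.range (Sum.inl : ℕ × ℕ → (ℕ × ℕ) ⊕ (ℕ × ℕ)))
        (Set.range (Sum.inr : ℕ × ℕ → (ℕ × ℕ) ⊕ (ℕ × ℕ))) := by
      rw [Set.disjoint_left]
      rintro x ⟨a, rfl⟩ ⟨b, hb⟩
      simp at hb
    have hI := indep_iSup_of_disjoint (fun x => (hX.meas x).comap_le) hi hd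
    have m1 : MeasurableSet[⨆ i ∈ Set.range (Sum.inl : ℕ × ℕ → (ℕ × ℕ) ⊕ (ℕ × ℕ)),
        MeasurableSpace.comap (X i) (⊤ : MeasurableSpace ℕ)] A1 := by
      refine (@meas_inc hMeas Ω (⨆ i ∈ Set.range (Sum.inl : ℕ × ℕ → (ℕ × ℕ) ⊕ (ℕ × ℕ)),
        MeasurableSpace.comap (X i) (⊤ : MeasurableSpace ℕ)) (shr M M W) ?_ _ _ _ _ _).1
      intro i j
      rw [measurable_iff_comap_le]
      exact le_iSup₂ (f := fun i (_ : i ∈ Set.range (Sum.inl : ℕ × ℕ → (ℕ × ℕ) ⊕ (ℕ × ℕ))) =>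
        MeasurableSpace.comap (X i) (⊤ : MeasurableSpace ℕ)) (Sum.inl (i + M, j + M))
        ⟨(i + M, j + M), rfl⟩
    have m2 : MeasurableSet[⨆ i ∈ Set.range (Sum.inr : ℕ × ℕ → (ℕ × ℕ) ⊕ (ℕ × ℕ)),
        MeasurableSpace.comap (X i) (⊤ : MeasurableSpace ℕ)] A2 := by
      refine (@meas_inc hMeas Ω (⨆ i ∈ Set.range (Sum.inr : ℕ × ℕ → (ℕ × ℕ) ⊕ (ℕ × ℕ)),
        MeasurableSpace.comap (X i) (⊤ : MeasurableSpace ℕ)) (shr M M Wh) ?_ _ _ _ _ _).2
      intro i j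
      rw [measurable_iff_comap_le]
      have e : shr M M Wh i j = X (Sum.inr (i + M, j + M)) := by
        simp only [shr, Wh]
        rw [if_neg (by omega)]
      rw [e]
      exact le_iSup₂ (f := fun i (_ : i ∈ Set.range (Sum.inr : ℕ × ℕ → (ℕ × ℕ) ⊕ (ℕ × ℕ))) =>
        MeasurableSpace.comap (X i) (⊤ : MeasurableSpace ℕ)) (Sum.inr (i + M, j + M))
        ⟨(i + M, j + M), rfl⟩
    have := (Indep_iff _ _ P).1 hI A1 A2 m1 m2
    simp only [Measure.real, this, ENNReal.toReal_mul]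
  -- bad events
  let L : (ℕ → ℕ → Ω → ℕ) → Set Ω := fun V => {ω | ∃ z < M + H, (z + K ≤ M ∨ M + K ≤ z) ∧
        Tr V (M + 1) M ω + Tr (shr M M V) H H ω
          ≤ Tr V (z + 1) M ω + Tr (shr z M V) (M + H - z) H ω}
  let I1 : (ℕ → ℕ → Ω → ℕ) → Set Ω := fun V => {ω | e ≤
        ((Tr (shr (M + s + K) 0 V) (M + H + s - (M + s + K)) H ω : ℝ)
          - Tr (shr (M + s + K) 0 V) (M + H - (M + s + K)) H ω)
        - ((Tr (shr (M - K) 0 V) (M + H + s - (M - K)) H ω : ℝ)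
          - Tr (shr (M - K) 0 V) (M + H - (M - K)) H ω)}
  let I2 : (ℕ → ℕ → Ω → ℕ) → Set Ω := fun V => {ω | e ≤
        ((Tr (shr (s + 2 * K) 0 V) (M + K + 1 + s - (s + 2 * K)) M ω : ℝ)
          - Tr (shr (s + 2 * K) 0 V) (M + K + 1 - (s + 2 * K)) M ω)
        - ((Tr (shr 0 0 V) (M + K + 1 + s - 0) M ω : ℝ)
          - Tr (shr 0 0 V) (M + K + 1 - 0) M ω)}
  let V1 := W
  let V2 := Wh
  let V3 := shr s 0 W
  let V4 := shr s 0 Wh
  let V5 := shr 0 M W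
  let V6 := shr 0 M Wh
  let V7 : ℕ → ℕ → Ω → ℕ := fun i j ω => rot (M + s + K + 1) M (fun i j => W i j ω) i j
  have b1 : P.real (L V1) ≤ ε := hLoc P _ hW
  have b2 : P.real (L V2) ≤ ε := hLoc P _ hWh
  have b3 : P.real (L V3) ≤ ε := hLoc P _ (hsWx W hW s 0)
  have b4 : P.real (L V4) ≤ ε := hLoc P _ (hsWx Wh hWh s 0)
  have b5 : P.real (I1 V5) ≤ ε := hInc1 P _ (hsWx W hW 0 M)
  have b6 : P.real (I1 V6) ≤ ε := hInc1 P _ (hsWx Wh hWh 0 M)
  have b7 : P.real (I2 V7) ≤ ε := hInc2 P _ (hrot W hW _ _)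
  -- the good event
  let Gd : Set Ω := {ω | t1 - t2 - 3 * e ≤
    ((Tr (shr s 0 W) (M + H) (M + H) ω : ℝ) - Tr (shr s 0 Wh) (M + H) (M + H) ω)
      - ((Tr W (M + H) (M + H) ω : ℝ) - Tr Wh (M + H) (M + H) ω)}
  have hsub : A1 ∩ A2 ⊆ Gd ∪ (L V1 ∪ (L V2 ∪ (L V3 ∪ (L V4 ∪ (I1 V5 ∪ (I1 V6 ∪ I2 V7)))))) := by
    rintro ω ⟨ha1, ha2⟩
    by_contra hcon
    simp only [Set.mem_union, not_or] at hcon
    obtain ⟨hG, n1, n2, n3, n4, n5, n6, n7⟩ := hcon
    apply hG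
    -- deterministic environments
    have key : ∀ (V : ℕ → ℕ → Ω → ℕ), ω ∉ L V → ω ∉ L (shr s 0 V) → _ :=
      fun V l1 l2 => detA hRow hCross (fun i j => V i j ω) M H s K hM hsK hsH
        (fun z hz hzK => by
          by_contra hc
          exact l1 ⟨z, hz, hzK, not_lt.1 hc⟩)
        (fun z hz hzK => by
          by_contra hc
          exact l2 ⟨z, hz, hzK, not_lt.1 hc⟩)
    obtain ⟨x1, x2, d1, d2, c1, c2⟩ := key W n1 n3
    obtain ⟨x1', x2', d1', d2', c1', c2'⟩ := key Wh n2 n4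
    obtain ⟨r1, r2, r3, r4⟩ := detRot hRot (fun i j => W i j ω) M s K hsK
    -- the hat environment agrees below the row `M`
    have hagree : ∀ i j, j < M → Wh i j ω = W i j ω := by
      intro i j hj
      simp only [Wh, W]
      rw [if_pos hj]
    have g1 : T (fun i j => Wh i j ω) (M + s + K + 1) M
        = T (fun i j => W i j ω) (M + s + K + 1) M :=
      T_congr _ _ _ _ (fun i _ j hj => hagree i j hj)
    have g2 : T (fun i j => Wh i j ω) (M - K + 1) M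
        = T (fun i j => W i j ω) (M - K + 1) M :=
      T_congr _ _ _ _ (fun i _ j hj => hagree i j hj)
    have g3 : T (sh s 0 (fun i j => Wh i j ω)) (M + s + K + 1 - s) M
        = T (sh s 0 (fun i j => W i j ω)) (M + s + K + 1 - s) M :=
      T_congr _ _ _ _ (fun i _ j hj => hagree (i + s) (j + 0) (by omega))
    have g4 : T (sh s 0 (fun i j => Wh i j ω)) (M - K + 1 - s) M
        = T (sh s 0 (fun i j => W i j ω)) (M - K + 1 - s) M :=
      T_congr _ _ _ _ (fun i _ j hj => hagree (i + s) (j + 0) (by omega))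
    rw [g2, g4] at d1'
    rw [g1, g3] at d2'
    -- the bad events in terms of the deterministic quantities
    have n5' : ((T (sh (M + s + K) M (fun i j => W i j ω)) (M + H + s - (M + s + K)) H : ℝ)
          - T (sh (M + s + K) M (fun i j => W i j ω)) (M + H - (M + s + K)) H)
        - ((T (sh (M - K) M (fun i j => W i j ω)) (M + H + s - (M - K)) H : ℝ)
          - T (sh (M - K) M (fun i j => W i j ω)) (M + H - (M - K)) H) < e := not_le.1 n5
    have n6' : ((T (sh (M + s + K) M (fun i j => Wh i j ω)) (M + H + s - (M + s + K)) H : ℝ)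
          - T (sh (M + s + K) M (fun i j => Wh i j ω)) (M + H - (M + s + K)) H)
        - ((T (sh (M - K) M (fun i j => Wh i j ω)) (M + H + s - (M - K)) H : ℝ)
          - T (sh (M - K) M (fun i j => Wh i j ω)) (M + H - (M - K)) H) < e := not_le.1 n6
    have n7' : ((T (sh (s + 2 * K) 0 (rot (M + s + K + 1) M (fun i j => W i j ω)))
            (M + K + 1 + s - (s + 2 * K)) M : ℝ)
          - T (sh (s + 2 * K) 0 (rot (M + s + K + 1) M (fun i j => W i j ω)))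
            (M + K + 1 - (s + 2 * K)) M)
        - ((T (rot (M + s + K + 1) M (fun i j => W i j ω)) (M + K + 1 + s) M : ℝ)
          - T (rot (M + s + K + 1) M (fun i j => W i j ω)) (M + K + 1) M) < e := not_le.1 n7
    rw [r1, r2, r3, r4] at n7'
    have a1 : t1 ≤ (T (sh M M (fun i j => W i j ω)) (H + s) H : ℝ)
      - T (sh M M (fun i j => W i j ω)) H H := ha1
    have a2 : (T (sh M M (fun i j => Wh i j ω)) (H + s) H : ℝ)
      - T (sh M M (fun i j => Wh i j ω)) H H ≤ t2 := ha2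
    show t1 - t2 - 3 * e ≤
      ((T (sh s 0 (fun i j => W i j ω)) (M + H) (M + H) : ℝ)
        - T (sh s 0 (fun i j => Wh i j ω)) (M + H) (M + H))
      - ((T (fun i j => W i j ω) (M + H) (M + H) : ℝ)
        - T (fun i j => Wh i j ω) (M + H) (M + H))
    have X1 : (T (fun i j => W i j ω) (M + H) (M + H) : ℝ)
      + T (sh (M - K) M (fun i j => W i j ω)) (M + H + s - (M - K)) H
      ≤ T (fun i j => W i j ω) (M + H + s) (M + H)
        + T (sh (M - K) M (fun i j => W i j ω)) (M + H - (M - K)) H := by exact_mod_cast x1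
    have X2' : (T (fun i j => Wh i j ω) (M + H + s) (M + H) : ℝ)
      + T (sh (M + s + K) M (fun i j => Wh i j ω)) (M + H - (M + s + K)) H
      ≤ T (fun i j => Wh i j ω) (M + H) (M + H)
        + T (sh (M + s + K) M (fun i j => Wh i j ω)) (M + H + s - (M + s + K)) H := by
      exact_mod_cast x2'
    have D1 : (T (fun i j => W i j ω) (M + H + s) (M + H) : ℝ)
      + T (sh s 0 (fun i j => W i j ω)) (M - K + 1 - s) M
      ≤ T (sh s 0 (fun i j => W i j ω)) (M + H) (M + H)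
        + T (fun i j => W i j ω) (M - K + 1) M := by exact_mod_cast d1
    have D2' : (T (sh s 0 (fun i j => Wh i j ω)) (M + H) (M + H) : ℝ)
      + T (fun i j => W i j ω) (M + s + K + 1) M
      ≤ T (fun i j => Wh i j ω) (M + H + s) (M + H)
        + T (sh s 0 (fun i j => W i j ω)) (M + s + K + 1 - s) M := by exact_mod_cast d2'
    have C2 : (T (sh M M (fun i j => W i j ω)) (H + s) H : ℝ)
      + T (sh (M + s + K) M (fun i j => W i j ω)) (M + H - (M + s + K)) H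
      ≤ T (sh (M + s + K) M (fun i j => W i j ω)) (M + H + s - (M + s + K)) H
        + T (sh M M (fun i j => W i j ω)) H H := by exact_mod_cast c2
    have C1' : (T (sh (M - K) M (fun i j => Wh i j ω)) (M + H + s - (M - K)) H : ℝ)
      + T (sh M M (fun i j => Wh i j ω)) H H
      ≤ T (sh M M (fun i j => Wh i j ω)) (H + s) H
        + T (sh (M - K) M (fun i j => Wh i j ω)) (M + H - (M - K)) H := by exact_mod_cast c1'
    linarith
  have hGd : κ ^ 2 - 7 * ε ≤ P.real Gd := by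
    have h1 := measureReal_mono hsub (μ := P)
    have h2 := measureReal_union_le (μ := P) Gd
      (L V1 ∪ (L V2 ∪ (L V3 ∪ (L V4 ∪ (I1 V5 ∪ (I1 V6 ∪ I2 V7))))))
    have h3 := measureReal_union_le (μ := P) (L V1)
      (L V2 ∪ (L V3 ∪ (L V4 ∪ (I1 V5 ∪ (I1 V6 ∪ I2 V7)))))
    have h4 := measureReal_union_le (μ := P) (L V2)
      (L V3 ∪ (L V4 ∪ (I1 V5 ∪ (I1 V6 ∪ I2 V7))))
    have h5 := measureReal_union_le (μ := P) (L V3) (L V4 ∪ (I1 V5 ∪ (I1 V6 ∪ I2 V7)))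
    have h6 := measureReal_union_le (μ := P) (L V4) (I1 V5 ∪ (I1 V6 ∪ I2 V7))
    have h7 := measureReal_union_le (μ := P) (I1 V5) (I1 V6 ∪ I2 V7)
    have h8 := measureReal_union_le (μ := P) (I1 V6) (I2 V7)
    have h9 : κ ^ 2 ≤ P.real (A1 ∩ A2) := by
      rw [hInd, sq]
      exact mul_le_mul hA1 hA2 hκ (hκ.trans hA1)
    linarith
  exact cheb _ _ _ _ (∫ ω, (Tr W₀ (M + H) (M + H) ω : ℝ) ∂μ₀) _ _ _
    (memLp_T hMom hMeas hq (hsWx W hW s 0) _ _) (memLp_T hMom hMeas hq (hsWx Wh hWh s 0) _ _)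
    (memLp_T hMom hMeas hq hW _ _) (memLp_T hMom hMeas hq hWh _ _)
    (mom_T hMom hMeas hLaw hq hW₀ (hsWx W hW s 0) _ _)
    (mom_T hMom hMeas hLaw hq hW₀ (hsWx Wh hWh s 0) _ _)
    (mom_T hMom hMeas hLaw hq hW₀ hW _ _)
    (mom_T hMom hMeas hLaw hq hW₀ hWh _ _) ht hGd

end Pool.Agent.W922.LP.Lb
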